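import Pool.Agent.H211.HY.Stm1
import Pool.Graph.R_seed8.Lev.J_schottky

/-!
# `S_MM`: Landau / Montel / Marty bound (project HY of helper211)
-/

set_option autoImplicit false

open Topology Filter Metric Set MeasureTheory Polynomial

namespace Pool.Agent.H177.HY211

open Pool.Agent.H790R3.RB Pool.Agent.H211.HY

lemma cr_plu (p q r s : ℂ × ℂ) :
    cr p q * cr r s - cr p r * cr q s + cr p s * cr q r = 0 := by
  unfold cr; ring

lemma cr_swap (p q : ℂ × ℂ) : cr p q = - cr q p := by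
  unfold cr; ring

lemma N2_nonneg (p : ℂ × ℂ) : 0 ≤ N2 p := by
  unfold N2; positivity

lemma N2_pos {p : ℂ × ℂ} (hp : p ≠ 0) : 0 < N2 p := by
  unfold N2
  rcases eq_or_ne p.1 0 with h1 | h1
  · have h2 : p.2 ≠ 0 := fun h2 => hp (Prod.ext h1 h2)
    have := norm_pos_iff.2 h2
    positivity
  · have := norm_pos_iff.2 h1
    positivity

lemma norm_cr_sq (p q : ℂ × ℂ) : ‖cr p q‖ ^ 2 ≤ N2 p * N2 q := by
  have h1 : ‖cr p q‖ ≤ ‖p.1‖ * ‖q.2‖ + ‖p.2‖ * ‖q.1‖ := by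
    unfold cr
    refine (norm_sub_le _ _).trans ?_
    rw [norm_mul, norm_mul]
  have h2 : ‖cr p q‖ ^ 2 ≤ (‖p.1‖ * ‖q.2‖ + ‖p.2‖ * ‖q.1‖) ^ 2 :=
    pow_le_pow_left₀ (norm_nonneg _) h1 2
  refine h2.trans ?_
  unfold N2
  nlinarith [sq_nonneg (‖p.1‖ * ‖q.1‖ - ‖p.2‖ * ‖q.2‖)]

lemma norm_cr_le (p q : ℂ × ℂ) : ‖cr p q‖ ≤ Real.sqrt (N2 p) * Real.sqrt (N2 q) := by
  rw [← Real.sqrt_mul (N2_nonneg p)]
  exact Real.le_sqrt_of_sq_le (norm_cr_sq p q)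

lemma le_norm_cr {σ : ℝ} {p q : ℂ × ℂ} (hp : p ≠ 0) (hq : q ≠ 0) (h : σ ≤ cho p q) :
    σ * (Real.sqrt (N2 p) * Real.sqrt (N2 q)) ≤ ‖cr p q‖ := by
  unfold cho at h
  rw [Real.sqrt_mul (N2_nonneg p)] at h
  have h1 : 0 < Real.sqrt (N2 p) * Real.sqrt (N2 q) :=
    mul_pos (Real.sqrt_pos.2 (N2_pos hp)) (Real.sqrt_pos.2 (N2_pos hq))
  rwa [le_div_iff₀ h1] at h

/-- the cross ratio -/
noncomputable def gg (h : ℂ → ℂ × ℂ) (a b c : ℂ × ℂ) (z : ℂ) : ℂ :=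
  cr (h z) a * cr b c / (cr (h z) b * cr a c)

lemma hasDerivAt_cr (h : ℂ → ℂ × ℂ) (v : ℂ) (hd : DifferentiableAt ℂ h v) (a : ℂ × ℂ) :
    HasDerivAt (fun z => cr (h z) a) (cr (deriv h v) a) v := by
  have h1 : HasDerivAt (fun z => (h z).1) (deriv h v).1 v := hd.hasDerivAt.fst
  have h2 : HasDerivAt (fun z => (h z).2) (deriv h v).2 v := hd.hasDerivAt.snd
  exact (h1.mul_const a.2).sub (h2.mul_const a.1)

lemma gg_deriv (h : ℂ → ℂ × ℂ) (v : ℂ) (hd : DifferentiableAt ℂ h v) (a b c : ℂ × ℂ)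
    (hb : cr (h v) b ≠ 0) (hac : cr a c ≠ 0) :
    HasDerivAt (gg h a b c)
      (cr b c / cr a c * (cr (deriv h v) (h v) * cr a b) / cr (h v) b ^ 2) v := by
  have h1 := (hasDerivAt_cr h v hd a).mul_const (cr b c)
  have h2 := (hasDerivAt_cr h v hd b).mul_const (cr a c)
  have h3 := h1.div h2 (mul_ne_zero hb hac)
  refine h3.congr_deriv ?_
  have h4 := cr_plu (deriv h v) a (h v) b
  have h5 := cr_swap a (h v)
  rw [h5] at h4
  field_simp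
  linear_combination (cr b c) * h4

/-- the case where the cross ratio is at most one in absolute value -/
lemma half (C : ℝ) (hC : ∀ (f : ℂ → ℂ) (c : ℂ) (r : ℝ), 0 < r →
      DifferentiableOn ℂ f (ball c r) → (∀ z ∈ ball c r, f z ≠ 0 ∧ f z ≠ 1) → ‖f c‖ ≤ 1 →
      ∀ z ∈ ball c (r / 2), ‖f z‖ ≤ C) (hC0 : 0 ≤ C)
    (σ : ℝ) (hσ : 0 < σ) (h : ℂ → ℂ × ℂ) (v : ℂ) (δ : ℝ) (a b c : ℂ × ℂ) (hδ : 0 < δ)
    (hh : DifferentiableOn ℂ h (ball v δ)) (h0 : ∀ z ∈ ball v δ, h z ≠ 0)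
    (ha : a ≠ 0) (hb : b ≠ 0) (hc : c ≠ 0) (hab : σ ≤ cho a b) (hbc : σ ≤ cho b c)
    (hac : σ ≤ cho a c)
    (ho : ∀ z ∈ ball v δ, cr (h z) a ≠ 0 ∧ cr (h z) b ≠ 0 ∧ cr (h z) c ≠ 0)
    (hg : ‖gg h a b c v‖ ≤ 1) : spd h v ≤ (4 * C / σ ^ 2) / δ := by
  have hv : v ∈ ball v δ := mem_ball_self hδ
  obtain ⟨A, hA⟩ : ∃ A, A = Real.sqrt (N2 a) := ⟨_, rfl⟩
  obtain ⟨B, hB⟩ : ∃ B, B = Real.sqrt (N2 b) := ⟨_, rfl⟩
  obtain ⟨D, hD⟩ : ∃ D, D = Real.sqrt (N2 c) := ⟨_, rfl⟩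
  have hA0 : 0 < A := hA ▸ Real.sqrt_pos.2 (N2_pos ha)
  have hB0 : 0 < B := hB ▸ Real.sqrt_pos.2 (N2_pos hb)
  have hD0 : 0 < D := hD ▸ Real.sqrt_pos.2 (N2_pos hc)
  have e1 := le_norm_cr ha hb hab
  have e2 := le_norm_cr hb hc hbc
  have e3 := le_norm_cr ha hc hac
  have e4 := norm_cr_le a c
  rw [← hA, ← hB] at e1
  rw [← hB, ← hD] at e2
  rw [← hA, ← hD] at e3 e4
  have nab : cr a b ≠ 0 := norm_pos_iff.1 (lt_of_lt_of_le (by positivity) e1)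
  have nbc : cr b c ≠ 0 := norm_pos_iff.1 (lt_of_lt_of_le (by positivity) e2)
  have nac : cr a c ≠ 0 := norm_pos_iff.1 (lt_of_lt_of_le (by positivity) e3)
  have hdiff : ∀ z ∈ ball v δ, DifferentiableAt ℂ h z := fun z hz =>
    hh.differentiableAt (isOpen_ball.mem_nhds hz)
  have hgd : DifferentiableOn ℂ (gg h a b c) (ball v δ) := fun z hz =>
    (gg_deriv h z (hdiff z hz) a b c (ho z hz).2.1 nac).differentiableAt.differentiableWithinAt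
  have hgo : ∀ z ∈ ball v δ, gg h a b c z ≠ 0 ∧ gg h a b c z ≠ 1 := by
    intro z hz
    obtain ⟨o1, o2, o3⟩ := ho z hz
    unfold gg
    refine ⟨div_ne_zero (mul_ne_zero o1 nbc) (mul_ne_zero o2 nac), fun h1 => ?_⟩
    rw [div_eq_one_iff_eq (mul_ne_zero o2 nac)] at h1
    have h2 := cr_plu (h z) a b c
    have h3 : cr (h z) c * cr a b = 0 := by linear_combination h2 - h1
    exact mul_ne_zero o3 nab h3
  have hbd := hC (gg h a b c) v δ hδ hgd hgo hg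
  -- Cauchy estimate
  have hsub : closedBall v (δ / 4) ⊆ ball v (δ / 2) := closedBall_subset_ball (by linarith)
  have hsub2 : ball v (δ / 2) ⊆ ball v δ := ball_subset_ball (by linarith)
  have hder : ‖deriv (gg h a b c) v‖ ≤ C / (δ / 4) :=
    Complex.norm_deriv_le_of_forall_mem_sphere_norm_le (by positivity)
      ((hgd.mono (hsub.trans hsub2)).diffContOnCl_ball Subset.rfl)
      (fun z hz => hbd z (hsub (sphere_subset_closedBall hz)))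
  rw [(gg_deriv h v (hdiff v hv) a b c (ho v hv).2.1 nac).deriv] at hder
  rw [norm_div, norm_mul, norm_div, norm_mul, norm_pow] at hder
  -- the comparison
  have hN : 0 < N2 (h v) := N2_pos (h0 v hv)
  have hhb := norm_cr_sq (h v) b
  have hNb : N2 b = B ^ 2 := by rw [hB, Real.sq_sqrt (N2_nonneg b)]
  rw [hNb] at hhb
  obtain ⟨s, hs⟩ : ∃ s, s = ‖cr (deriv h v) (h v)‖ := ⟨_, rfl⟩
  obtain ⟨t, ht⟩ : ∃ t, t = ‖cr (h v) b‖ := ⟨_, rfl⟩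
  obtain ⟨x, hx⟩ : ∃ x, x = ‖cr a b‖ := ⟨_, rfl⟩
  obtain ⟨y, hy⟩ : ∃ y, y = ‖cr b c‖ := ⟨_, rfl⟩
  obtain ⟨w, hw⟩ : ∃ w, w = ‖cr a c‖ := ⟨_, rfl⟩
  have hs0 : 0 ≤ s := hs ▸ norm_nonneg _
  have ht0 : 0 < t := ht ▸ norm_pos_iff.2 (ho v hv).2.1
  have hx0 : 0 < x := hx ▸ norm_pos_iff.2 nab
  have hy0 : 0 < y := hy ▸ norm_pos_iff.2 nbc
  have hw0 : 0 < w := hw ▸ norm_pos_iff.2 nac
  rw [← hs, ← ht, ← hx, ← hy, ← hw] at hder
  rw [← hx] at e1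
  rw [← hy] at e2
  rw [← hw] at e4
  rw [← ht] at hhb
  unfold spd
  rw [← hs]
  have h1 : σ ^ 2 * B ^ 2 * w ≤ x * y := by
    have h2 : (σ * (A * B)) * (σ * (B * D)) ≤ x * y :=
      mul_le_mul e1 e2 (by positivity) hx0.le
    have h3 : σ ^ 2 * B ^ 2 * w ≤ σ ^ 2 * B ^ 2 * (A * D) :=
      mul_le_mul_of_nonneg_left e4 (by positivity)
    nlinarith
  have h2 : s * (x * y) ≤ C / (δ / 4) * (t ^ 2 * w) := by
    have h3 : y / w * (s * x) / t ^ 2 = s * (x * y) / (t ^ 2 * w) := by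
      field_simp
    rw [h3, div_le_iff₀ (by positivity)] at hder
    exact hder
  have h3 : s * (σ ^ 2 * B ^ 2 * w) ≤ C / (δ / 4) * (N2 (h v) * B ^ 2 * w) := by
    calc s * (σ ^ 2 * B ^ 2 * w) ≤ s * (x * y) := mul_le_mul_of_nonneg_left h1 hs0
      _ ≤ C / (δ / 4) * (t ^ 2 * w) := h2
      _ ≤ C / (δ / 4) * (N2 (h v) * B ^ 2 * w) :=
          mul_le_mul_of_nonneg_left (mul_le_mul_of_nonneg_right hhb hw0.le) (by positivity)
  have h4 : s * σ ^ 2 ≤ C / (δ / 4) * N2 (h v) := by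
    have h5 : 0 < B ^ 2 * w := by positivity
    refine le_of_mul_le_mul_right ?_ h5
    linarith
  rw [div_le_iff₀ hN]
  have h6 : 4 * C / σ ^ 2 / δ * N2 (h v) = (C / (δ / 4) * N2 (h v)) / σ ^ 2 := by
    field_simp
  rw [h6, le_div_iff₀ (by positivity)]
  exact h4

theorem t_MM : S_MM := by
  intro σ hσ
  obtain ⟨C, hC⟩ := Pool.Agent.Lev.J_schottky.main 1
  have hC' : ∀ (f : ℂ → ℂ) (c : ℂ) (r : ℝ), 0 < r →
      DifferentiableOn ℂ f (ball c r) → (∀ z ∈ ball c r, f z ≠ 0 ∧ f z ≠ 1) → ‖f c‖ ≤ 1 →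
      ∀ z ∈ ball c (r / 2), ‖f z‖ ≤ max C 1 := fun f c r hr hf ho hM z hz =>
    (hC f c r hr hf ho hM z hz).trans (le_max_left _ _)
  have hC1 : 0 < max C 1 := lt_of_lt_of_le one_pos (le_max_right _ _)
  refine ⟨4 * max C 1 / σ ^ 2, by positivity, ?_⟩
  intro h v δ a b c hδ hh h0 ha hb hc hab hbc hac ho
  by_cases hg : ‖gg h a b c v‖ ≤ 1
  · exact half (max C 1) hC' hC1.le σ hσ h v δ a b c hδ hh h0 ha hb hc hab hbc hac ho hg
  · have hswap : ∀ p q : ℂ × ℂ, cho p q = cho q p := by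
      intro p q
      unfold cho
      rw [cr_swap p q, norm_neg, mul_comm (N2 p)]
    have hg' : ‖gg h b a c v‖ ≤ 1 := by
      have h1 : gg h b a c v = (gg h a b c v)⁻¹ := by
        unfold gg
        rw [inv_div]
      rw [h1, norm_inv]
      push Not at hg
      exact inv_le_one_of_one_le₀ hg.le
    refine half (max C 1) hC' hC1.le σ hσ h v δ b a c hδ hh h0 hb ha hc ?_ hac hbc
      (fun z hz => ⟨(ho z hz).2.1, (ho z hz).1, (ho z hz).2.2⟩) hg'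
    rw [hswap]
    exact hab

end Pool.Agent.H177.HY211
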